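import Mathlib

/-!
# Flows in the exchange digraph of a matching

`E i k`: agent `i` accepts bundle `k` (agent `i` holds bundle `i`), `h i k`: the gain of agent `i`
from bundle `k`.  If the identity is a matching of maximal total gain, then no closed flow has
positive weight (Birkhoff), and there is a vertex at which no flow of positive weight ends.
-/

namespace Pool.Agent.PMN

open Finset

variable {N : Type} [Fintype N] [DecidableEq N]

/-- a unit flow from `i` to `k` along the edges of `E` -/
structure Flow (E : N → N → Prop) (i k : N) (f : N → N → ℕ) : Prop where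
  supp : ∀ a b, f a b ≠ 0 → E a b
  bal : ∀ a, ∑ b, f a b + (if a = k then 1 else 0) = ∑ b, f b a + (if a = i then 1 else 0)

/-- the weight of a flow -/
def wt (h : N → N → ℤ) (f : N → N → ℕ) : ℤ := ∑ a, ∑ b, (f a b : ℤ) * (h a b - h a a)

/-- the identity is a matching of maximal gain -/
def IsMax (E : N → N → Prop) (h : N → N → ℤ) : Prop :=
  (∀ i, E i i) ∧ ∀ σ : Equiv.Perm N, (∀ i, E i (σ i)) → ∑ i, h i (σ i) ≤ ∑ i, h i i

/-- one step -/
def single (j k : N) : N → N → ℕ := fun a b => if a = j ∧ b = k then 1 else 0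

theorem sum_single_row (j k a : N) : ∑ b, single j k a b = if a = j then 1 else 0 := by
  unfold single
  by_cases h : a = j
  · simp [h]
  · simp [h]

theorem sum_single_col (j k a : N) : ∑ b, single j k b a = if a = k then 1 else 0 := by
  unfold single
  by_cases h : a = k
  · simp [h]
  · simp [h]

theorem Flow.zero (E : N → N → Prop) (i : N) : Flow E i i (fun _ _ => 0) :=
  ⟨fun a b h => absurd rfl h, fun a => by simp⟩

theorem Flow.edge {E : N → N → Prop} {j k : N} (h : E j k) : Flow E j k (single j k) := by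
  refine ⟨?_, ?_⟩
  · intro a b hab
    by_cases h' : a = j ∧ b = k
    · rw [h'.1, h'.2]; exact h
    · exact absurd (by simp [single, h']) hab
  · intro a
    rw [sum_single_row, sum_single_col]
    omega

theorem Flow.add {E : N → N → Prop} {i j k : N} {f g : N → N → ℕ} (hf : Flow E i j f)
    (hg : Flow E j k g) : Flow E i k (fun a b => f a b + g a b) := by
  refine ⟨?_, ?_⟩
  · intro a b hab
    by_cases h : f a b = 0
    · exact hg.supp a b (by intro h'; exact hab (by rw [h, h']))
    · exact hf.supp a b h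
  · intro a
    have h1 := hf.bal a
    have h2 := hg.bal a
    simp only [sum_add_distrib]
    omega

theorem wt_zero (h : N → N → ℤ) : wt h (fun _ _ => 0) = 0 := by
  simp [wt]

theorem wt_single (h : N → N → ℤ) (j k : N) : wt h (single j k) = h j k - h j j := by
  unfold wt single
  rw [sum_eq_single j]
  · rw [sum_eq_single k]
    · simp
    · intro b _ hb; simp [hb]
    · intro hk; exact absurd (mem_univ _) hk
  · intro a _ ha
    simp [ha]
  · intro hj; exact absurd (mem_univ _) hj

theorem wt_add (h : N → N → ℤ) (f g : N → N → ℕ) :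
    wt h (fun a b => f a b + g a b) = wt h f + wt h g := by
  unfold wt
  rw [← sum_add_distrib]
  refine sum_congr rfl fun a _ => ?_
  rw [← sum_add_distrib]
  refine sum_congr rfl fun b _ => ?_
  push_cast
  ring

/-- no closed flow has positive weight -/
theorem IsMax.closed {E : N → N → Prop} {h : N → N → ℤ} (hm : IsMax E h) {i : N}
    {f : N → N → ℕ} (hf : Flow E i i f) : wt h f ≤ 0 := by
  obtain ⟨hE, hmax⟩ := hm
  have hbal : ∀ a, ∑ b, f a b = ∑ b, f b a := fun a => by
    have := hf.bal a
    omega
  set L : ℚ := ((∑ a, ∑ b, f a b : ℕ) : ℚ) + 1 with hL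
  have hL0 : 0 < L := by positivity
  have hout : ∀ a, ((∑ b, f a b : ℕ) : ℚ) ≤ L := by
    intro a
    have : ∑ b, f a b ≤ ∑ a, ∑ b, f a b :=
      single_le_sum (f := fun a => ∑ b, f a b) (fun _ _ => Nat.zero_le _) (mem_univ a)
    have : ((∑ b, f a b : ℕ) : ℚ) ≤ ((∑ a, ∑ b, f a b : ℕ) : ℚ) := by exact_mod_cast this
    linarith
  let D : Matrix N N ℚ := fun a b =>
    (f a b : ℚ) / L + if a = b then 1 - ((∑ c, f a c : ℕ) : ℚ) / L else 0
  have hD : D ∈ doublyStochastic ℚ N := by
    rw [mem_doublyStochastic_iff_sum]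
    refine ⟨?_, ?_, ?_⟩
    · intro a b
      have h1 : (0 : ℚ) ≤ (f a b : ℚ) / L := by positivity
      have h2 : ((∑ c, f a c : ℕ) : ℚ) / L ≤ 1 := by
        rw [div_le_one hL0]; exact hout a
      simp only [D]
      split_ifs
      · linarith
      · linarith
    · intro a
      simp only [D, sum_add_distrib, sum_ite_eq, mem_univ, if_true, ← sum_div]
      push_cast
      ring
    · intro b
      simp only [D, sum_add_distrib, sum_ite_eq', mem_univ, if_true, ← sum_div]
      rw [hbal b]
      push_cast
      ring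
  obtain ⟨w, hw0, hw1, hw2⟩ := exists_eq_sum_perm_of_mem_doublyStochastic hD
  have hent : ∀ a b, D a b = ∑ σ : Equiv.Perm N, w σ * (if σ a = b then 1 else 0) := by
    intro a b
    have := congrFun (congrFun hw2 a) b
    rw [← this]
    simp only [Matrix.sum_apply, Matrix.smul_apply, smul_eq_mul]
    refine sum_congr rfl fun σ _ => ?_
    congr 1
    simp [Equiv.Perm.permMatrix, PEquiv.toMatrix_apply, Equiv.toPEquiv_apply, eq_comm]
  have hsup : ∀ σ, w σ ≠ 0 → ∀ a, E a (σ a) := by
    intro σ hσ a
    by_contra hne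
    have hne' : a ≠ σ a := fun e => hne (by rw [← e]; exact hE a)
    have hf0 : f a (σ a) = 0 := by
      by_contra h'
      exact hne (hf.supp _ _ h')
    have h0 : D a (σ a) = 0 := by
      simp only [D, hf0, if_neg hne']
      simp
    rw [hent] at h0
    have := (sum_eq_zero_iff_of_nonneg (fun τ _ => by
      have := hw0 τ
      split_ifs <;> simp [this])).1 h0 σ (mem_univ _)
    rw [if_pos rfl, mul_one] at this
    exact hσ this
  have key : ∑ a, ∑ b, D a b * (h a b : ℚ) ≤ ∑ a, (h a a : ℚ) := by
    have e1 : ∑ a, ∑ b, D a b * (h a b : ℚ) =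
        ∑ σ : Equiv.Perm N, w σ * ∑ a, (h a (σ a) : ℚ) := by
      have : ∀ a, ∑ b, D a b * (h a b : ℚ) = ∑ σ : Equiv.Perm N, w σ * (h a (σ a) : ℚ) := by
        intro a
        simp only [hent, sum_mul]
        rw [sum_comm]
        refine sum_congr rfl fun σ _ => ?_
        rw [sum_eq_single (σ a)]
        · simp
        · intro b _ hb
          rw [if_neg (fun e => hb e.symm)]
          ring
        · intro h'; exact absurd (mem_univ _) h'
      simp only [this]
      rw [sum_comm]
      refine sum_congr rfl fun σ _ => ?_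
      rw [mul_sum]
    rw [e1]
    calc ∑ σ : Equiv.Perm N, w σ * ∑ a, (h a (σ a) : ℚ)
        ≤ ∑ σ : Equiv.Perm N, w σ * ∑ a, (h a a : ℚ) := by
          refine sum_le_sum fun σ _ => ?_
          by_cases hσ : w σ = 0
          · rw [hσ, zero_mul, zero_mul]
          · have := hmax σ (hsup σ hσ)
            have : ∑ a, (h a (σ a) : ℚ) ≤ ∑ a, (h a a : ℚ) := by exact_mod_cast this
            exact mul_le_mul_of_nonneg_left this (hw0 σ)
      _ = ∑ a, (h a a : ℚ) := by rw [← sum_mul, hw1, one_mul]
  have e2 : ∑ a, ∑ b, D a b * (h a b : ℚ) = ∑ a, (h a a : ℚ) + (wt h f : ℚ) / L := by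
    have : ∀ a, ∑ b, D a b * (h a b : ℚ) =
        (h a a : ℚ) + (∑ b, (f a b : ℚ) * ((h a b : ℚ) - (h a a : ℚ))) / L := by
      intro a
      simp only [D, add_mul, sum_add_distrib, ite_mul, zero_mul, sum_ite_eq, mem_univ, if_true,
        mul_sub, sum_sub_distrib]
      rw [← sum_mul]
      have : ∑ b, (f a b : ℚ) / L * (h a b : ℚ) = (∑ b, (f a b : ℚ) * (h a b : ℚ)) / L := by
        rw [sum_div]
        exact sum_congr rfl fun b _ => by ring
      rw [this]
      push_cast
      field_simp
      ring
    simp only [this, sum_add_distrib]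
    rw [← sum_div]
    congr 2
    unfold wt
    push_cast
    rfl
  rw [e2] at key
  have : (wt h f : ℚ) / L ≤ 0 := by linarith
  have : (wt h f : ℚ) ≤ 0 := by
    by_contra hlt
    push Not at hlt
    have := div_pos hlt hL0
    linarith
  exact_mod_cast this

/-- no flow of positive weight ends at `j` -/
def Bot (E : N → N → Prop) (h : N → N → ℤ) (j : N) : Prop :=
  ∀ i f, Flow E i j f → wt h f ≤ 0

theorem IsMax.exists_bot [Nonempty N] {E : N → N → Prop} {h : N → N → ℤ} (hm : IsMax E h) :
    ∃ j, Bot E h j := by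
  by_contra hne
  have hne' : ∀ j, ∃ i f, Flow E i j f ∧ 1 ≤ wt h f := by
    intro j
    by_contra h'
    apply hne
    refine ⟨j, fun i f hf => ?_⟩
    by_contra h''
    exact h' ⟨i, f, hf, by omega⟩
  choose p f hf hw using hne'
  have hiter : ∀ (m : ℕ) (j : N), ∃ g, Flow E (p^[m] j) j g ∧ (m : ℤ) ≤ wt h g := by
    intro m
    induction m with
    | zero => exact fun j => ⟨_, Flow.zero E j, by rw [wt_zero]; simp⟩
    | succ m ih =>
      intro j
      obtain ⟨g, hg, hgw⟩ := ih (p j)
      refine ⟨_, hg.add (hf j), ?_⟩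
      rw [wt_add]
      have := hw j
      push_cast
      omega
  obtain ⟨j0⟩ := ‹Nonempty N›
  obtain ⟨a, b, hab, he⟩ := Finite.exists_ne_map_eq_of_infinite (fun m : ℕ => p^[m] j0)
  wlog hlt : a < b generalizing a b
  · exact this b a hab.symm he.symm (by omega)
  have he' : p^[b - a] (p^[a] j0) = p^[a] j0 := by
    rw [← Function.iterate_add_apply, Nat.sub_add_cancel hlt.le]
    exact he.symm
  obtain ⟨g, hg, hgw⟩ := hiter (b - a) (p^[a] j0)
  rw [he'] at hg
  have := hm.closed hg
  have : 1 ≤ b - a := by omega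
  omega

end Pool.Agent.PMN
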