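import Pool.Agent.PMN.World

/-!
# The loser of a state is not hungry
-/

namespace Pool.Agent.PMN

open Finset Pool.Agent.Helper81.PMMS

set_option linter.unusedSectionVars false

variable {N : Type} [Fintype N] [DecidableEq N] {M : Type} [DecidableEq M]
variable {v : N → Finset M → ℕ} {u : N → ℕ}

/-- replace the bundles `a` and `b` -/
def rep (X : N → Finset M) (a b : N) (S T : Finset M) : N → Finset M :=
  fun k => if k = a then S else if k = b then T else X k

theorem rep_a (X : N → Finset M) (a b : N) (S T : Finset M) : rep X a b S T a = S := if_pos rfl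

theorem rep_b (X : N → Finset M) {a b : N} (hab : a ≠ b) (S T : Finset M) :
    rep X a b S T b = T := by
  unfold rep
  rw [if_neg hab.symm, if_pos rfl]

theorem rep_ne (X : N → Finset M) {a b k : N} (ha : k ≠ a) (hb : k ≠ b) (S T : Finset M) :
    rep X a b S T k = X k := by
  unfold rep
  rw [if_neg ha, if_neg hb]

theorem rep_cases {P : N → Finset M → Prop} (X : N → Finset M) {a b : N} (hab : a ≠ b)
    {S T : Finset M} (ha : P a S) (hb : P b T) (h : ∀ k, k ≠ a → k ≠ b → P k (X k)) (k : N) :
    P k (rep X a b S T k) := by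
  by_cases h1 : k = a
  · subst h1; rw [rep_a]; exact ha
  · by_cases h2 : k = b
    · subst h2; rw [rep_b X hab]; exact hb
    · rw [rep_ne X h1 h2]; exact h k h1 h2

theorem rep_pd {X : N → Finset M} (hX : PD X) {a b : N} (hab : a ≠ b) {S T : Finset M}
    (hST : Disjoint S T) (hS : S ⊆ X a ∪ X b) (hT : T ⊆ X a ∪ X b) : PD (rep X a b S T) := by
  have hk : ∀ k, k ≠ a → k ≠ b → Disjoint (X a ∪ X b) (X k) := fun k h1 h2 => by
    rw [disjoint_union_left]
    exact ⟨hX a k h1.symm, hX b k h2.symm⟩
  intro i j hij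
  by_cases h1 : i = a
  · subst h1
    rw [rep_a]
    by_cases h2 : j = b
    · subst h2; rw [rep_b X hab]; exact hST
    · rw [rep_ne X hij.symm h2]
      exact (hk j hij.symm h2).mono_left hS
  · by_cases h1' : i = b
    · subst h1'
      rw [rep_b X hab]
      by_cases h2 : j = a
      · subst h2; rw [rep_a]; exact hST.symm
      · rw [rep_ne X h2 hij.symm]
        exact (hk j h2 hij.symm).mono_left hT
    · rw [rep_ne X h1 h1']
      by_cases h2 : j = a
      · subst h2; rw [rep_a]; exact ((hk i h1 h1').mono_left hS).symm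
      · by_cases h3 : j = b
        · subst h3; rw [rep_b X hab]; exact ((hk i h1 h1').mono_left hT).symm
        · rw [rep_ne X h2 h3]; exact hX i j hij

/-- two neutral sets and an item -/
structure Tri (v : N → Finset M → ℕ) (u : N → ℕ) (U C D : Finset M) (x : M) : Prop where
  disj : Disjoint C D
  xC : x ∉ C
  xD : x ∉ D
  un : insert x (C ∪ D) = U
  nC : Neutral v u C
  nD : Neutral v u D

theorem Tri.symm {U C D : Finset M} {x : M} (h : Tri v u U C D x) : Tri v u U D C x :=
  ⟨h.disj.symm, h.xD, h.xC, by rw [union_comm]; exact h.un, h.nD, h.nC⟩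

theorem Tri.subC {U C D : Finset M} {x : M} (h : Tri v u U C D x) : C ⊆ U := by
  rw [← h.un]
  exact subset_union_left.trans (subset_insert _ _)

theorem Tri.mem {U C D : Finset M} {x : M} (h : Tri v u U C D x) : x ∈ U := by
  rw [← h.un]
  exact mem_insert_self _ _

/-- an agent for whom `U` splits well wins both sides with the item -/
theorem Tri.win {U C D : Finset M} {x : M} (h : Tri v u U C D x) (hv : ∀ i, BM (v i)) {a : N}
    (hs : Spl (v a) (u a + 1) U) : u a < v a (insert x C) := by
  rcases (hv a).spl_cases hs (C := insert x C) (D := D)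
    (by rw [disjoint_insert_left]; exact ⟨h.xD, h.disj⟩)
    (by rw [insert_union]; exact h.un) with h1 | h1
  · omega
  · have := h.nD a
    omega

/-- the agents other than `a` can be matched to the bundles other than `a`: they win, only the
agent at `b` has to accept `S` -/
def NeuM (v : N → Finset M → ℕ) (u : N → ℕ) (X : N → Finset M) (a b : N) (S : Finset M) : Prop :=
  ∃ σ : Equiv.Perm N, σ a = a ∧
    ∀ i, i ≠ a → (σ i = b → u i ≤ v i S) ∧ (σ i ≠ b → u i < v i (X (σ i)))

theorem NeuM.mono (hv : ∀ i, BM (v i)) {X : N → Finset M} {a b : N} {S T : Finset M}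
    (h : NeuM v u X a b S) (hST : S ⊆ T) : NeuM v u X a b T := by
  obtain ⟨σ, h1, h2⟩ := h
  exact ⟨σ, h1, fun i hi => ⟨fun e => ((h2 i hi).1 e).trans ((hv i).mono hST), (h2 i hi).2⟩⟩

theorem le_of_lt_insert {w : Finset M → ℕ} (hw : BM w) {S : Finset M} {x : M} {t : ℕ}
    (h : t < w (insert x S)) : t ≤ w S := by
  have := hw.insert_le S x
  omega

/-- after a recut with a neutral match everybody can be the loser -/
theorem free_of_tri (hv : ∀ i, BM (v i)) (hT : Top v u) {C X : N → Finset M} {a b : N}
    (hS : State v u a C X) (hab : a ≠ b) (hs : Spl (v a) (u a + 1) (X a ∪ X b))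
    {C' D' : Finset M} {x : M} (ht : Tri v u (X a ∪ X b) C' D' x)
    (hn : NeuM v u X a b D') (j : N) :
    ∃ ρ : Equiv.Perm N, ρ j = b ∧
      ∀ i, i ≠ j → u i < v i (rep X a b (insert x C') D' (ρ i)) := by
  obtain ⟨σ, hσa, hσ⟩ := hn
  have hwin := ht.win hv hs
  have hSt : State v u (σ.symm b) (fun i => rep C a b C' D' (σ i))
      (fun i => rep X a b (insert x C') D' (σ i)) := by
    refine ⟨⟨?_, ?_, ?_, ?_, ?_⟩, ?_, ?_⟩
    · refine PD.comp (rep_pd hS.pd hab ?_ ?_ ?_) σ
      · rw [disjoint_insert_left]; exact ⟨ht.xD, ht.disj⟩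
      · exact insert_subset ht.mem ht.subC
      · exact ht.symm.subC
    · exact fun k => rep_cases (P := fun _ S => Neutral v u S) C hab ht.nC ht.nD
        (fun k _ _ => hS.neu k) (σ k)
    · intro k
      refine rep_cases (P := fun k S => S ⊆ rep X a b (insert x C') D' k) C hab ?_ ?_ ?_ (σ k)
      · rw [rep_a]; exact subset_insert _ _
      · rw [rep_b X hab]
      · intro k h1 h2
        rw [rep_ne X h1 h2]; exact hS.sub k
    · intro k
      refine rep_cases (P := fun k S => (rep X a b (insert x C') D' k).card ≤ S.card + 1) C hab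
        ?_ ?_ ?_ (σ k)
      · rw [rep_a]; exact card_insert_le _ _
      · rw [rep_b X hab]; omega
      · intro k h1 h2
        rw [rep_ne X h1 h2]; exact hS.thin k
    · intro i
      by_cases hi : i = a
      · subst hi
        rw [hσa, rep_a]
        exact le_of_lt_insert (hv i) hwin
      · by_cases hb : σ i = b
        · rw [hb, rep_b C hab]
          exact (hσ i hi).1 hb
        · have ha : σ i ≠ a := fun e => hi (σ.injective (e.trans hσa.symm))
          rw [rep_ne C ha hb]
          have h1 := (hσ i hi).2 hb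
          have h2 := hS.le_succ hv i (σ i)
          omega
    · show Neutral v u (rep X a b (insert x C') D' (σ (σ.symm b)))
      rw [Equiv.apply_symm_apply, rep_b X hab]
      exact ht.nD
    · intro i hi
      by_cases hia : i = a
      · subst hia
        rw [hσa, rep_a]
        exact hwin
      · have hb : σ i ≠ b := fun e => hi (by rw [← e, Equiv.symm_apply_apply])
        have ha : σ i ≠ a := fun e => hia (σ.injective (e.trans hσa.symm))
        rw [rep_ne X ha hb]
        exact (hσ i hia).2 hb
  obtain ⟨τ, hτ1, hτ2⟩ := hSt.free hv hT j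
  refine ⟨τ.trans σ, ?_, ?_⟩
  · rw [Equiv.trans_apply, hτ1, Equiv.apply_symm_apply]
  · intro i hi
    exact hτ2 i hi

/-- the two sides of a triple are equivalent -/
theorem neuM_flip (hv : ∀ i, BM (v i)) (hT : Top v u) {C X : N → Finset M} {a b : N}
    (hS : State v u a C X) (hab : a ≠ b) (hs : Spl (v a) (u a + 1) (X a ∪ X b))
    {C' D' : Finset M} {x : M} (ht : Tri v u (X a ∪ X b) C' D' x)
    (hn : NeuM v u X a b D') : NeuM v u X a b C' := by
  obtain ⟨ρ, hρ1, hρ2⟩ := free_of_tri hv hT hS hab hs ht hn a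
  refine ⟨ρ.trans (Equiv.swap a b), ?_, ?_⟩
  · rw [Equiv.trans_apply, hρ1, Equiv.swap_apply_right]
  · intro i hi
    have hb : ρ i ≠ b := fun e => hi (ρ.injective (e.trans hρ1.symm))
    have h1 := hρ2 i hi
    rw [Equiv.trans_apply]
    by_cases ha : ρ i = a
    · rw [ha, rep_a] at h1
      rw [ha, Equiv.swap_apply_left]
      exact ⟨fun _ => le_of_lt_insert (hv i) h1, fun h => absurd rfl h⟩
    · rw [Equiv.swap_apply_of_ne_of_ne ha hb]
      rw [rep_ne X ha hb] at h1
      exact ⟨fun e => absurd e hb, fun _ => h1⟩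

/-- no failure of the exchange property -/
theorem no_failure (hv : ∀ i, BM (v i)) (hT : Top v u) {C X : N → Finset M} {a b : N}
    (hS : State v u a C X) (hab : a ≠ b) (hs : Spl (v a) (u a + 1) (X a ∪ X b))
    {C' D' : Finset M} {x z : M} (ht : Tri v u (X a ∪ X b) C' D' x)
    (hn : NeuM v u X a b C') (hz : z ∈ C') (h1 : Full v u (insert x (C'.erase z)))
    (h2 : Full v u (insert z D')) : False := by
  obtain ⟨j, hj⟩ := h1
  have hjC := le_of_lt_insert (hv j) hj
  obtain ⟨ρ, hρ1, hρ2⟩ := free_of_tri hv hT hS hab hs ht.symm hn j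
  have hzD : z ∉ D' := disjoint_left.1 ht.disj hz
  have hzx : z ≠ x := fun e => ht.xC (e ▸ hz)
  have : Nonempty N := ⟨a⟩
  refine no_all_full hv hT (C := rep C a b D' (C'.erase z))
    (X := rep X a b (insert z D') (insert x (C'.erase z))) ?_ ?_ ?_ ?_ ρ ?_ ?_
  · refine rep_pd hS.pd hab ?_ ?_ ?_
    · rw [disjoint_insert_left, disjoint_insert_right]
      refine ⟨?_, ht.xD, ?_⟩
      · rw [mem_insert, not_or]
        exact ⟨hzx, notMem_erase _ _⟩
      · exact ht.disj.symm.mono_right (erase_subset _ _)
    · exact insert_subset (ht.subC hz) ht.symm.subC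
    · exact insert_subset ht.mem ((erase_subset _ _).trans ht.subC)
  · exact fun k => rep_cases (P := fun _ S => Neutral v u S) C hab ht.nD
      (fun i => ((hv i).erase_le _ _).trans (ht.nC i)) (fun k _ _ => hS.neu k) k
  · intro k
    refine rep_cases (P := fun k S => S ⊆ rep X a b (insert z D') (insert x (C'.erase z)) k) C hab
      ?_ ?_ ?_ k
    · rw [rep_a]; exact subset_insert _ _
    · rw [rep_b X hab]; exact subset_insert _ _
    · intro k h1 h2
      rw [rep_ne X h1 h2]; exact hS.sub k
  · intro k
    refine rep_cases (P := fun k S =>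
      (rep X a b (insert z D') (insert x (C'.erase z)) k).card ≤ S.card + 1) C hab ?_ ?_ ?_ k
    · rw [rep_a]; exact card_insert_le _ _
    · rw [rep_b X hab]; exact card_insert_le _ _
    · intro k h1 h2
      rw [rep_ne X h1 h2]; exact hS.thin k
  · intro i
    by_cases hij : i = j
    · subst hij
      rw [hρ1, rep_b C hab]
      exact hjC
    · have h3 := hρ2 i hij
      have hb : ρ i ≠ b := fun e => hij (ρ.injective (e.trans hρ1.symm))
      by_cases ha : ρ i = a
      · rw [ha, rep_a] at h3
        rw [ha, rep_a]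
        exact le_of_lt_insert (hv i) h3
      · rw [rep_ne X ha hb] at h3
        rw [rep_ne C ha hb]
        have := hS.le_succ hv i (ρ i)
        omega
  · intro k
    refine rep_cases (P := fun _ S => Full v u S) X hab h2 ⟨j, hj⟩ (fun k h1 _ => ?_) k
    exact ⟨k, hS.win k h1⟩

/-- a triple with neutral matches -/
structure Good (v : N → Finset M → ℕ) (u : N → ℕ) (X : N → Finset M) (a b : N)
    (C D : Finset M) (x : M) : Prop where
  tri : Tri v u (X a ∪ X b) C D x
  mC : NeuM v u X a b C
  mD : NeuM v u X a b D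

theorem Good.symm {X : N → Finset M} {a b : N} {C D : Finset M} {x : M}
    (h : Good v u X a b C D x) : Good v u X a b D C x := ⟨h.tri.symm, h.mD, h.mC⟩

/-- one step of the walk -/
theorem Good.step (hv : ∀ i, BM (v i)) (hT : Top v u) {C X : N → Finset M} {a b : N}
    (hS : State v u a C X) (hab : a ≠ b) {A B : Finset M} (hAB : Disjoint A B)
    (hU : A ∪ B = X a ∪ X b) (hA : u a + 1 ≤ v a A) (hB : u a + 1 ≤ v a B)
    {C' D' : Finset M} {x : M} (hg : Good v u X a b C' D' x) (hx : x ∈ A) :
    ∃ C'' D'' x', Good v u X a b C'' D'' x' ∧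
      (D' ∩ A).card + (C' ∩ B).card < (D'' ∩ A).card + (C'' ∩ B).card := by
  have hs : Spl (v a) (u a + 1) (X a ∪ X b) := ⟨A, B, hAB, hU, hA, hB⟩
  have ht := hg.tri
  have hxB : x ∉ B := disjoint_left.1 hAB hx
  obtain ⟨z, hzB, hzC⟩ : ∃ z, z ∈ B ∧ z ∉ C' := by
    by_contra hcon
    push Not at hcon
    have h1 := (hv a).mono (S := B) (T := C') hcon
    have h2 := ht.nC a
    omega
  have hzx : z ≠ x := fun e => hxB (e ▸ hzB)
  have hzA : z ∉ A := disjoint_right.1 hAB hzB
  have hzU : z ∈ X a ∪ X b := by rw [← hU]; exact mem_union_right _ hzB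
  have hzD : z ∈ D' := by
    rw [← ht.un, mem_insert, mem_union] at hzU
    rcases hzU with h | h | h
    · exact absurd h hzx
    · exact absurd h hzC
    · exact h
  by_cases hn1 : Neutral v u (insert z C')
  · have ht' : Tri v u (X a ∪ X b) (insert z C') (D'.erase z) x := by
      refine ⟨?_, ?_, ?_, ?_, hn1, fun i => ((hv i).erase_le _ _).trans (ht.nD i)⟩
      · rw [disjoint_insert_left]
        exact ⟨notMem_erase _ _, ht.disj.mono_right (erase_subset _ _)⟩
      · rw [mem_insert, not_or]
        exact ⟨hzx.symm, ht.xC⟩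
      · exact fun h => ht.xD (mem_of_mem_erase h)
      · rw [← ht.un]
        ext y
        simp only [mem_insert, mem_union, mem_erase]
        by_cases hy : y = z
        · subst hy
          simp [hzD]
        · simp only [hy, false_or, ne_eq, not_false_eq_true, true_and]
    have hm : NeuM v u X a b (insert z C') := hg.mC.mono hv (subset_insert _ _)
    refine ⟨_, _, _, ⟨ht', hm, neuM_flip hv hT hS hab hs ht'.symm hm⟩, ?_⟩
    have e1 : D'.erase z ∩ A = D' ∩ A := by
      ext y
      simp only [mem_inter, mem_erase]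
      constructor
      · rintro ⟨⟨_, h1⟩, h2⟩
        exact ⟨h1, h2⟩
      · rintro ⟨h1, h2⟩
        exact ⟨⟨fun e => hzA (e ▸ h2), h1⟩, h2⟩
    have e2 : insert z C' ∩ B = insert z (C' ∩ B) := by
      rw [insert_inter_of_mem hzB]
    rw [e1, e2, card_insert_of_notMem (fun h => hzC (mem_inter.1 h).1)]
    omega
  · by_cases hn2 : Neutral v u (insert x (D'.erase z))
    · have ht' : Tri v u (X a ∪ X b) C' (insert x (D'.erase z)) z := by
        refine ⟨?_, hzC, ?_, ?_, ht.nC, hn2⟩
        · rw [disjoint_insert_right]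
          exact ⟨ht.xC, ht.disj.mono_right (erase_subset _ _)⟩
        · rw [mem_insert, not_or]
          exact ⟨hzx, notMem_erase _ _⟩
        · rw [← ht.un]
          ext y
          simp only [mem_insert, mem_union, mem_erase]
          by_cases hy : y = z
          · subst hy
            simp [hzD]
          · simp only [hy, false_or, ne_eq, not_false_eq_true, true_and]
            tauto
      refine ⟨_, _, _, ⟨ht', hg.mC, neuM_flip hv hT hS hab hs ht'.symm hg.mC⟩, ?_⟩
      have e1 : insert x (D'.erase z) ∩ A = insert x (D' ∩ A) := by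
        rw [insert_inter_of_mem hx]
        congr 1
        ext y
        simp only [mem_inter, mem_erase]
        constructor
        · rintro ⟨⟨_, h1⟩, h2⟩
          exact ⟨h1, h2⟩
        · rintro ⟨h1, h2⟩
          exact ⟨⟨fun e => hzA (e ▸ h2), h1⟩, h2⟩
      rw [e1, card_insert_of_notMem (fun h => ht.xD (mem_inter.1 h).1)]
      omega
    · exact (no_failure hv hT hS hab hs ht.symm hg.mD hzD (not_neutral.1 hn2)
        (not_neutral.1 hn1)).elim

/-- the loser of a state is not hungry -/
theorem State.not_hungry [Fintype M] (hv : ∀ i, BM (v i)) (hT : Top v u) {C X : N → Finset M}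
    {a b : N} (hS : State v u a C X) (hab : a ≠ b) : ¬ Spl (v a) (u a + 1) (X a ∪ X b) := by
  classical
  rintro ⟨A, B, hAB, hU, hA, hB⟩
  have hs : Spl (v a) (u a + 1) (X a ∪ X b) := ⟨A, B, hAB, hU, hA, hB⟩
  -- the initial triple
  have hb := hS.win b hab.symm
  have hXb : ∃ t, t ∉ C b ∧ X b = insert t (C b) := by
    have h1 : X b ≠ C b := by
      intro e
      rw [e] at hb
      have := hS.neu b b
      omega
    have h2 : (C b).card < (X b).card :=
      card_lt_card (Finset.ssubset_iff_subset_ne.2 ⟨hS.sub b, h1.symm⟩)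
    have h3 : (X b \ C b).card = 1 := by
      rw [card_sdiff_of_subset (hS.sub b)]
      have := hS.thin b
      omega
    obtain ⟨t, ht⟩ := card_eq_one.1 h3
    refine ⟨t, ?_, ?_⟩
    · have : t ∈ X b \ C b := by rw [ht]; exact mem_singleton_self t
      exact (mem_sdiff.1 this).2
    · rw [insert_eq, ← ht, sdiff_union_of_subset (hS.sub b)]
  obtain ⟨t, htC, hXt⟩ := hXb
  have hdab : Disjoint (X a) (X b) := hS.pd a b hab
  have hinit : Good v u X a b (X a) (C b) t := by
    have ht' : Tri v u (X a ∪ X b) (X a) (C b) t := by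
      refine ⟨hdab.mono_right (hS.sub b), ?_, htC, ?_, hS.neul, hS.neu b⟩
      · intro h
        have : t ∈ X b := by rw [hXt]; exact mem_insert_self _ _
        exact disjoint_left.1 hdab h this
      · rw [hXt, union_insert]
    have hm : NeuM v u X a b (C b) := by
      refine ⟨Equiv.refl _, rfl, fun i hi => ⟨?_, ?_⟩⟩
      · rintro rfl
        exact hS.acc _
      · intro _
        exact hS.win i hi
    exact ⟨ht', neuM_flip hv hT hS hab hs ht' hm, hm⟩
  obtain ⟨⟨C', D', x⟩, hg, hmax⟩ := exists_max_image
    (univ.filter fun p : Finset M × Finset M × M => Good v u X a b p.1 p.2.1 p.2.2)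
    (fun p => (p.2.1 ∩ A).card + (p.1 ∩ B).card) ⟨(X a, C b, t), by simpa using hinit⟩
  rw [mem_filter] at hg
  have hg := hg.2
  simp only at hg
  have hxU := hg.tri.mem
  rw [← hU, mem_union] at hxU
  rcases hxU with hx | hx
  · obtain ⟨C'', D'', x', h1, h2⟩ := hg.step hv hT hS hab hAB hU hA hB hx
    have := hmax (C'', D'', x') (by rw [mem_filter]; exact ⟨mem_univ _, h1⟩)
    simp only at this
    omega
  · obtain ⟨C'', D'', x', h1, h2⟩ := hg.symm.step hv hT hS hab hAB.symm
      (by rw [union_comm]; exact hU) hB hA hx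
    have := hmax (D'', C'', x') (by rw [mem_filter]; exact ⟨mem_univ _, h1.symm⟩)
    simp only at this
    omega

end Pool.Agent.PMN
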