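import Pool.Agent.PMN.Tokens
import Pool.Agent.PMN.Walk

/-!
# Few unallocated items
-/

namespace Pool.Agent.PMN

open Finset Pool.Agent.Helper81.PMMS

set_option linter.unusedSectionVars false

variable {N : Type} [Fintype N] [DecidableEq N] {M : Type} [DecidableEq M]
variable {v : N → Finset M → ℕ}

/-- envy-free -/
def EF (v : N → Finset M → ℕ) (X : N → Finset M) : Prop := ∀ i j, v i (X j) ≤ v i (X i)

/-- a base with maximal levels and, among these, a maximal number of items -/
theorem exists_base [Fintype M] (hv : ∀ i, BM (v i)) :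
    ∃ Y : N → Finset M, PD Y ∧ EF v Y ∧ Top v (fun i => v i (Y i)) ∧
      ∀ k, ∀ t ∈ univ \ univ.biUnion Y, Full v (fun i => v i (Y i)) (insert t (Y k)) := by
  classical
  obtain ⟨Y0, hY0, hmax0⟩ := exists_max_image
    (univ.filter fun X : N → Finset M => PD X ∧ EF v X) (fun X => ∑ i, v i (X i))
    ⟨fun _ => ∅, by
      rw [mem_filter]
      exact ⟨mem_univ _, fun i j _ => disjoint_empty_left _, fun i j => le_refl _⟩⟩
  obtain ⟨Y, hY, hmax⟩ := exists_max_image
    (univ.filter fun X : N → Finset M => (PD X ∧ EF v X) ∧ ∑ i, v i (X i) = ∑ i, v i (Y0 i))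
    (fun X => ∑ i, (X i).card)
    ⟨Y0, by
      rw [mem_filter] at hY0 ⊢
      exact ⟨mem_univ _, hY0.2, rfl⟩⟩
  rw [mem_filter] at hY
  obtain ⟨_, ⟨hpd, hef⟩, hsum⟩ := hY
  refine ⟨Y, hpd, hef, ?_, ?_⟩
  · intro X hX1 hX2 hX3
    have h1 := hmax0 X (by rw [mem_filter]; exact ⟨mem_univ _, hX1, hX3⟩)
    have h2 : ∑ i, v i (Y i) = ∑ i, v i (X i) :=
      le_antisymm (sum_le_sum fun i _ => hX2 i) (h1.trans hsum.ge)
    intro i
    exact ((sum_eq_sum_iff_of_le fun i _ => hX2 i).1 h2 i (mem_univ i)).ge
  · intro k t ht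
    rw [mem_sdiff, mem_biUnion] at ht
    have ht2 : ∀ j, t ∉ Y j := fun j hj => ht.2 ⟨j, mem_univ _, hj⟩
    by_contra hcon
    have hneu : Neutral v (fun i => v i (Y i)) (insert t (Y k)) := by
      by_contra h
      exact hcon (not_neutral.1 h)
    set X : N → Finset M := Function.update Y k (insert t (Y k)) with hX
    have hXk : X k = insert t (Y k) := by rw [hX, Function.update_self]
    have hXj : ∀ j, j ≠ k → X j = Y j := fun j hj => by rw [hX, Function.update_of_ne hj]
    have hsub : ∀ j, Y j ⊆ X j := by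
      intro j
      by_cases h : j = k
      · subst h; rw [hXk]; exact subset_insert _ _
      · rw [hXj j h]
    have hle : ∀ i j, v i (X j) ≤ v i (Y i) := by
      intro i j
      by_cases h : j = k
      · subst h; rw [hXk]; exact hneu i
      · rw [hXj j h]; exact hef i j
    have hpdX : PD X := by
      intro i j hij
      by_cases h1 : i = k
      · subst h1
        rw [hXk, hXj j hij.symm, disjoint_insert_left]
        exact ⟨ht2 j, hpd i j hij⟩
      · by_cases h2 : j = k
        · subst h2
          rw [hXk, hXj i h1, disjoint_insert_right]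
          exact ⟨ht2 i, hpd i j hij⟩
        · rw [hXj i h1, hXj j h2]
          exact hpd i j hij
    have hge : ∀ i, v i (Y i) ≤ v i (X i) := fun i => (hv i).mono (hsub i)
    have hX' := hmax X (by
      rw [mem_filter]
      refine ⟨mem_univ _, ⟨hpdX, fun i j => (hle i j).trans (hge i)⟩, ?_⟩
      rw [← hsum]
      exact sum_congr rfl fun i _ => le_antisymm (hle i i) (hge i))
    have hlt : ∑ i, (Y i).card < ∑ i, (X i).card := by
      apply sum_lt_sum (fun i _ => card_le_card (hsub i))
      refine ⟨k, mem_univ _, ?_⟩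
      rw [hXk, card_insert_of_notMem (ht2 k)]
      omega
    omega

theorem main_nat [Fintype M] [Nonempty N] (hv : ∀ i, BM (v i)) :
    (∃ X : N → Finset M, PD X ∧ EF v X ∧
      (univ \ univ.biUnion X).card + 2 ≤ Fintype.card N) ∨
    (∃ X : N → Finset M, PD X ∧ (∀ g, ∃ i, g ∈ X i) ∧ ∀ i j, i ≠ j → NE (v i) (X i) (X j)) := by
  classical
  obtain ⟨Y, hpd, hef, hT, hfull⟩ := exists_base (N := N) hv
  by_cases hsmall : (univ \ univ.biUnion Y).card + 2 ≤ Fintype.card N
  · exact Or.inl ⟨Y, hpd, hef, hsmall⟩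
  right
  have hneu : ∀ k, Neutral v (fun i => v i (Y i)) (Y k) := fun k j => hef j k
  have hnot : ∀ k, ∀ t ∈ univ \ univ.biUnion Y, t ∉ Y k := by
    intro k t ht hk
    rw [mem_sdiff, mem_biUnion] at ht
    exact ht.2 ⟨k, mem_univ _, hk⟩
  have hcard : (univ \ univ.biUnion Y).card + 1 = Fintype.card N := by
    by_contra hne
    have hle : Fintype.card N ≤ Fintype.card (univ \ univ.biUnion Y : Finset M) := by
      rw [Fintype.card_coe]
      omega
    obtain ⟨t⟩ := Function.Embedding.nonempty_of_card_le hle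
    have hinj : Function.Injective fun k => some (t k) :=
      fun i j h => t.injective (Option.some_injective _ h)
    refine no_all_full hv hT (C := Y) (X := tok Y fun k => some (t k)) (tok_pd hpd hnot hinj)
      hneu (tok_sub _ _) (tok_card _ _) (Equiv.refl _) (fun i => le_refl _) ?_
    intro k
    exact hfull k _ (t k).2
  obtain ⟨l, C, X, hS, hcov⟩ := exists_state hv hT hpd hneu (fun i => le_refl _) hnot hfull hcard
  refine ⟨X, hS.pd, ?_, ?_⟩
  · intro g
    apply hcov
    by_cases h : ∃ k, g ∈ Y k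
    · exact Or.inr h
    · left
      rw [mem_sdiff, mem_biUnion]
      exact ⟨mem_univ _, fun ⟨k, _, hk⟩ => h ⟨k, hk⟩⟩
  · intro i j hij
    by_cases hi : i = l
    · subst hi
      have h1 := hS.not_hungry hv hT hij
      have h2 := hS.neul i
      have h3 := (hS.acc i).trans ((hv i).mono (hS.sub i))
      have h4 : v i (X i) = v i (Y i) := le_antisymm h2 h3
      unfold NE
      rw [h4]
      exact h1
    · apply (hv i).ne_of_le (hS.pd i j hij)
      have h1 := hS.win i hi
      have h2 := hS.le_level hv i j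
      omega

end Pool.Agent.PMN
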