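import Pool.Agent.PMN.World

/-!
# All items of a pool of size `n - 1` can be won
-/

namespace Pool.Agent.PMN

open Finset Pool.Agent.Helper81.PMMS

set_option linter.unusedSectionVars false

variable {N : Type} [Fintype N] [DecidableEq N] {M : Type} [DecidableEq M]
variable {v : N → Finset M → ℕ} {u : N → ℕ}

/-- a closed flow through a special last edge -/
theorem exists_cycle {E : N → N → Prop} {h : N → N → ℤ} (Z : N → Prop) (S : N → N → Prop)
    (hne : ∃ k, Z k)
    (hstep : ∀ k, Z k → ∃ k' f, Z k' ∧ Flow E k' k f ∧ 0 ≤ wt h f ∧ ∃ j, f j k ≠ 0 ∧ S j k) :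
    ∃ k f, Z k ∧ Flow E k k f ∧ 0 ≤ wt h f ∧ ∃ j, f j k ≠ 0 ∧ S j k := by
  classical
  have hstep' : ∀ k : {k // Z k}, ∃ (k' : {k // Z k}) (f : N → N → ℕ), Flow E k' k f ∧
      0 ≤ wt h f ∧ ∃ j, f j k ≠ 0 ∧ S j k := by
    rintro ⟨k, hk⟩
    obtain ⟨k', f, h1, h2, h3, h4⟩ := hstep k hk
    exact ⟨⟨k', h1⟩, f, h2, h3, h4⟩
  choose p f hf hw hj using hstep'
  have hiter : ∀ (m : ℕ) (k : {k // Z k}), ∃ g, Flow E (p^[m + 1] k) k g ∧ 0 ≤ wt h g ∧
      ∃ j, g j k ≠ 0 ∧ S j k := by
    intro m
    induction m with
    | zero => exact fun k => ⟨f k, hf k, hw k, hj k⟩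
    | succ m ih =>
      intro k
      obtain ⟨g, hg, hgw, _⟩ := ih (p k)
      refine ⟨_, hg.add (hf k), ?_, ?_⟩
      · rw [wt_add]
        have := hw k
        omega
      · obtain ⟨j, h1, h2⟩ := hj k
        exact ⟨j, by omega, h2⟩
  obtain ⟨k0, hk0⟩ := hne
  obtain ⟨a, b, hab, he⟩ :=
    Finite.exists_ne_map_eq_of_infinite (fun m : ℕ => p^[m] (⟨k0, hk0⟩ : {k // Z k}))
  wlog hlt : a < b generalizing a b
  · exact this b a hab.symm he.symm (by omega)
  have he' : p^[b - a] (p^[a] ⟨k0, hk0⟩) = p^[a] ⟨k0, hk0⟩ := by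
    rw [← Function.iterate_add_apply, Nat.sub_add_cancel hlt.le]
    exact he.symm
  obtain ⟨g, hg, hgw, hgj⟩ := hiter (b - a - 1) (p^[a] ⟨k0, hk0⟩)
  have e1 : b - a - 1 + 1 = b - a := by omega
  rw [e1, he'] at hg
  exact ⟨_, g, (p^[a] ⟨k0, hk0⟩).2, hg, hgw, hgj⟩

/-- the bundles with their tokens -/
def tok {P : Finset M} (C : N → Finset M) (e : N → Option P) (k : N) : Finset M :=
  (e k).elim (C k) (fun t => insert (t : M) (C k))

theorem tok_none {P : Finset M} {C : N → Finset M} {e : N → Option P} {k : N}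
    (h : e k = none) : tok C e k = C k := by
  unfold tok
  rw [h]
  rfl

theorem tok_some {P : Finset M} {C : N → Finset M} {e : N → Option P} {k : N} {t : P}
    (h : e k = some t) : tok C e k = insert (t : M) (C k) := by
  unfold tok
  rw [h]
  rfl

theorem tok_sub {P : Finset M} (C : N → Finset M) (e : N → Option P) (k : N) :
    C k ⊆ tok C e k := by
  rcases h : e k with _ | t
  · rw [tok_none h]
  · rw [tok_some h]; exact subset_insert _ _

theorem tok_card {P : Finset M} (C : N → Finset M) (e : N → Option P) (k : N) :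
    (tok C e k).card ≤ (C k).card + 1 := by
  rcases h : e k with _ | t
  · rw [tok_none h]; omega
  · rw [tok_some h]; exact card_insert_le _ _

theorem tok_pd {P : Finset M} {C : N → Finset M} (hC : PD C) (hP : ∀ k, ∀ t ∈ P, t ∉ C k)
    {e : N → Option P} (he : Function.Injective e) : PD (tok C e) := by
  intro i j hij
  rcases h1 : e i with _ | s
  · rw [tok_none h1]
    rcases h2 : e j with _ | t
    · rw [tok_none h2]; exact hC i j hij
    · rw [tok_some h2, disjoint_insert_right]
      exact ⟨hP i t t.2, hC i j hij⟩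
  · rw [tok_some h1]
    rcases h2 : e j with _ | t
    · rw [tok_none h2, disjoint_insert_left]
      exact ⟨hP j s s.2, hC i j hij⟩
    · rw [tok_some h2, disjoint_insert_left, disjoint_insert_right]
      refine ⟨?_, hP i t t.2, hC i j hij⟩
      rw [mem_insert, not_or]
      refine ⟨fun h => hij (he ?_), hP j s s.2⟩
      rw [h1, h2, Subtype.ext h]

/-- in a best placement everybody with a token wins -/
theorem all_win (hv : ∀ i, BM (v i)) (hT : Top v u) {C : N → Finset M} {P : Finset M}
    (hd : PD C) (hC : ∀ k, Neutral v u (C k)) (hacc : ∀ i, u i ≤ v i (C i))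
    (hP : ∀ k, ∀ t ∈ P, t ∉ C k) (hfull : ∀ k, ∀ t ∈ P, Full v u (insert t (C k)))
    (e : N ≃ Option P)
    (hmax : ∀ (e' : N ≃ Option P) (σ : Equiv.Perm N), (∀ i, u i ≤ v i (C (σ i))) →
      ∑ i, gain v u (tok C e') i (σ i) ≤ ∑ i, gain v u (tok C e) i i) (i1 : N)
    (hi1 : e i1 ≠ none) : u i1 < v i1 (tok C e i1) := by
  classical
  by_contra hlose
  obtain ⟨t, ht⟩ := Option.ne_none_iff_exists'.1 hi1
  obtain ⟨i0, hi0⟩ : ∃ i0, e i0 = none := ⟨e.symm none, by simp⟩
  -- the placement without the token of `i1`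
  set e' : N → Option P := fun k => if k = i1 then none else e k with he'
  have he'ne : ∀ k, k ≠ i1 → tok C e' k = tok C e k := by
    intro k hk
    unfold tok
    rw [he']
    simp only [if_neg hk]
  have he'1 : tok C e' i1 = C i1 := tok_none (by rw [he']; simp)
  have he'0 : tok C e' i0 = C i0 := by
    by_cases h : i0 = i1
    · rw [h, he'1]
    · rw [he'ne i0 h, tok_none hi0]
  have hsub' : ∀ k, tok C e' k ⊆ tok C e k := by
    intro k
    by_cases h : k = i1
    · rw [h, he'1]; exact tok_sub _ _ _
    · rw [he'ne k h]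
  have hW : World v u C (tok C e') := by
    refine ⟨?_, hC, tok_sub C e', tok_card C e', hacc⟩
    intro i j hij
    exact ((tok_pd hd hP e.injective i j hij).mono_left (hsub' i)).mono_right (hsub' j)
  have hge : ∀ i k, gain v u (tok C e') i k ≤ gain v u (tok C e) i k := by
    intro i k
    unfold gain
    have := (hv i).mono (hsub' k)
    split_ifs
    · exact le_refl _
    · omega
    · norm_num
    · exact le_refl _
  have hdiag : ∀ i, gain v u (tok C e') i i = gain v u (tok C e) i i := by
    intro i
    by_cases h : i = i1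
    · subst h
      rw [gain_of_not hlose]
      apply gain_of_not
      rw [he'1]
      have := hC i i
      omega
    · unfold gain
      rw [he'ne i h]
  have hmax' : ∀ (e'' : N ≃ Option P) (σ : Equiv.Perm N), (∀ i, u i ≤ v i (C (σ i))) →
      ∑ i, gain v u (tok C e'') i (σ i) ≤ ∑ i, gain v u (tok C e') i i := by
    intro e'' σ hσ
    rw [sum_congr rfl fun i _ => hdiag i]
    exact hmax e'' σ hσ
  have hM : IsMax (fun i k => u i ≤ v i (C k)) (gain v u (tok C e')) := by
    refine ⟨hacc, fun σ hσ => ?_⟩
    exact (sum_le_sum fun i _ => hge i (σ i)).trans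
      ((hmax e σ hσ).trans (sum_le_sum fun i _ => (hdiag i).ge))
  obtain ⟨hZ1, hZ2⟩ := hW.bot_neutral hv hT
  have : Nonempty N := ⟨i0⟩
  have hZ : ∀ j, Bot (fun i k => u i ≤ v i (C k)) (gain v u (tok C e')) j → j = i0 ∨ j = i1 := by
    intro j hj
    by_contra hcon
    push Not at hcon
    have h1 := hZ1 j hj
    rw [he'ne j hcon.2] at h1
    rcases h2 : e j with _ | s
    · exact hcon.1 (e.injective (h2.trans hi0.symm))
    · rw [tok_some h2] at h1
      exact not_neutral.2 (hfull j s s.2) h1
  have hZC : ∀ j, Bot (fun i k => u i ≤ v i (C k)) (gain v u (tok C e')) j →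
      tok C e' j = C j := by
    intro j hj
    rcases hZ j hj with rfl | rfl
    · exact he'0
    · exact he'1
  -- the closed flow
  obtain ⟨k, F, hk, hF, hFw, j, hFj, hjk⟩ := exists_cycle
    (E := fun i k => u i ≤ v i (C k)) (h := gain v u (tok C e'))
    (Bot (fun i k => u i ≤ v i (C k)) (gain v u (tok C e')))
    (fun j k => u j < v j (insert (t : M) (C k))) hM.exists_bot (by
      intro k hk
      obtain ⟨j, hj⟩ := hfull k t t.2
      have hE : u j ≤ v j (C k) := by
        have := (hv j).insert_le (C k) t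
        omega
      have hk0 : ∀ i, gain v u (tok C e') i k = 0 := fun i =>
        gain_of_not (by have := hZ1 k hk i; omega)
      have hedge := Flow.edge (E := fun i k => u i ≤ v i (C k)) hE
      have hs1 : single j k j k = 1 := by simp [single]
      by_cases hjw : u j < v j (tok C e' j)
      · have h1 := gain_of_win hjw
        have hnb : ¬ Bot (fun i k => u i ≤ v i (C k)) (gain v u (tok C e')) j :=
          fun h => hZ2 j h hjw
        unfold Bot at hnb
        push Not at hnb
        obtain ⟨i, f, hf, hfw⟩ := hnb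
        refine ⟨i, _, ?_, hf.add hedge, ?_, j, ?_, hj⟩
        · intro a g hg
          have := hk a _ ((hg.add hf).add hedge)
          rw [wt_add, wt_add, wt_single, hk0, h1] at this
          omega
        · rw [wt_add, wt_single, hk0, h1]
          omega
        · simp only [hs1]
          omega
      · have h1 := gain_of_not hjw
        refine ⟨j, _, ?_, hedge, ?_, j, ?_, hj⟩
        · intro a g hg
          have := hk a _ (hg.add hedge)
          rw [wt_add, wt_single, hk0, h1] at this
          omega
        · rw [wt_single, hk0, h1]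
          omega
        · rw [hs1]
          norm_num)
  -- the placement with the token on `k`
  obtain ⟨e'', he''k, he''⟩ : ∃ e'' : N ≃ Option P, e'' k = some t ∧
      ∀ b, b ≠ k → tok C e'' b = tok C e' b := by
    by_cases hk1 : k = i1
    · refine ⟨e, by rw [hk1]; exact ht, fun b hb => ?_⟩
      rw [he'ne b (by rw [← hk1]; exact hb)]
    · have hk0 : k = i0 := by
        rcases hZ k hk with h | h
        · exact h
        · exact absurd h hk1
      refine ⟨(Equiv.swap i0 i1).trans e, ?_, fun b hb => ?_⟩
      · rw [Equiv.trans_apply, hk0, Equiv.swap_apply_left]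
        exact ht
      · by_cases hb1 : b = i1
        · rw [hb1, he'1]
          apply tok_none
          show e (Equiv.swap i0 i1 i1) = none
          rw [Equiv.swap_apply_right]
          exact hi0
        · rw [he'ne b hb1]
          unfold tok
          show (e (Equiv.swap i0 i1 b)).elim _ _ = _
          rw [Equiv.swap_apply_of_ne_of_ne (by rw [← hk0]; exact hb) hb1]
  have hgk : ∀ a, gain v u (tok C e') a k = 0 := fun a =>
    gain_of_not (by have := hZ1 k hk a; omega)
  have hge'' : ∀ a b, gain v u (tok C e') a b ≤ gain v u (tok C e'') a b := by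
    intro a b
    by_cases hb : b = k
    · subst hb
      rw [hgk]
      exact gain_nonneg _ _ _
    · unfold gain
      rw [he'' b hb]
  have hM'' : IsMax (fun i k => u i ≤ v i (C k)) (gain v u (tok C e'')) :=
    ⟨hacc, fun σ hσ => (hmax' e'' σ hσ).trans (sum_le_sum fun i _ => hge'' i i)⟩
  have hdiag'' : ∀ a, gain v u (tok C e'') a a = gain v u (tok C e') a a := by
    have h1 := hmax' e'' (Equiv.refl N) (by simpa using hacc)
    simp only [Equiv.refl_apply] at h1
    have h2 : ∑ a, gain v u (tok C e') a a = ∑ a, gain v u (tok C e'') a a :=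
      le_antisymm (sum_le_sum fun i _ => hge'' i i) h1
    intro a
    exact ((sum_eq_sum_iff_of_le fun i _ => hge'' i i).1 h2 a (mem_univ a)).symm
  have hcl := hM''.closed hF
  have hj1 : gain v u (tok C e'') j k = 1 := gain_of_win (by rw [tok_some he''k]; exact hjk)
  have hdiff : wt (gain v u (tok C e'')) F - wt (gain v u (tok C e')) F =
      ∑ a, ∑ b, (F a b : ℤ) * (gain v u (tok C e'') a b - gain v u (tok C e') a b) := by
    unfold wt
    rw [← sum_sub_distrib]
    refine sum_congr rfl fun a _ => ?_
    rw [← sum_sub_distrib]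
    refine sum_congr rfl fun b _ => ?_
    rw [hdiag'' a]
    ring
  have hterm : ∀ a b,
      0 ≤ (F a b : ℤ) * (gain v u (tok C e'') a b - gain v u (tok C e') a b) := by
    intro a b
    have := hge'' a b
    apply mul_nonneg (by positivity)
    omega
  have hlow : 1 ≤ ∑ a, ∑ b, (F a b : ℤ) *
      (gain v u (tok C e'') a b - gain v u (tok C e') a b) := by
    calc (1 : ℤ) ≤ (F j k : ℤ) * (gain v u (tok C e'') j k - gain v u (tok C e') j k) := by
          rw [hj1, hgk]
          have : 1 ≤ F j k := Nat.one_le_iff_ne_zero.2 hFj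
          push_cast
          omega
      _ ≤ ∑ b, (F j b : ℤ) * (gain v u (tok C e'') j b - gain v u (tok C e') j b) :=
          single_le_sum (f := fun b => (F j b : ℤ) *
            (gain v u (tok C e'') j b - gain v u (tok C e') j b)) (fun b _ => hterm j b)
            (mem_univ k)
      _ ≤ _ := single_le_sum (f := fun a => ∑ b, (F a b : ℤ) *
            (gain v u (tok C e'') a b - gain v u (tok C e') a b))
            (fun a _ => sum_nonneg fun b _ => hterm a b) (mem_univ j)
  omega

/-- a state exists if the pool has `n - 1` items and every single item makes every bundle full -/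
theorem exists_state (hv : ∀ i, BM (v i)) (hT : Top v u) {C : N → Finset M} {P : Finset M}
    (hd : PD C) (hC : ∀ k, Neutral v u (C k)) (hacc : ∀ i, u i ≤ v i (C i))
    (hP : ∀ k, ∀ t ∈ P, t ∉ C k) (hfull : ∀ k, ∀ t ∈ P, Full v u (insert t (C k)))
    (hcard : P.card + 1 = Fintype.card N) :
    ∃ (l : N) (C' X : N → Finset M), State v u l C' X ∧
      ∀ g, (g ∈ P ∨ ∃ k, g ∈ C k) → ∃ i, g ∈ X i := by
  classical
  have hc : Fintype.card N = Fintype.card (Option P) := by
    rw [Fintype.card_option, Fintype.card_coe]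
    exact hcard.symm
  obtain ⟨e0⟩ := Fintype.card_eq.1 hc
  obtain ⟨⟨e, σ⟩, h1, h2⟩ := exists_max_image
    (univ.filter fun p : (N ≃ Option P) × Equiv.Perm N => ∀ i, u i ≤ v i (C (p.2 i)))
    (fun p => ∑ i, gain v u (tok C p.1) i (p.2 i)) ⟨(e0, Equiv.refl N), by simpa using hacc⟩
  rw [mem_filter] at h1
  have h1 := h1.2
  simp only at h1
  have htok : ∀ (e' : N → Option P) (k : N),
      tok (fun k => C (σ k)) (fun k => e' (σ k)) k = tok C e' (σ k) := fun e' k => rfl
  have hwin := all_win hv hT (C := fun k => C (σ k)) (P := P) (hd.comp σ) (fun k => hC _) h1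
    (fun k => hP _) (fun k => hfull _) (σ.trans e) (by
      intro e' τ hτ
      have := h2 (σ.symm.trans e', τ.trans σ) (by
        rw [mem_filter]
        exact ⟨mem_univ _, hτ⟩)
      simp only at this
      have h3 : ∀ i, gain v u (tok (fun k => C (σ k)) e') i (τ i) =
          gain v u (tok C (σ.symm.trans e')) i ((τ.trans σ) i) := by
        intro i
        unfold gain tok
        simp
      rw [sum_congr rfl fun i _ => h3 i]
      exact this)
  refine ⟨(σ.trans e).symm none, fun k => C (σ k), tok (fun k => C (σ k)) (σ.trans e),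
    ⟨⟨tok_pd (hd.comp σ) (fun k => hP _) (σ.trans e).injective, fun k => hC _, tok_sub _ _,
      tok_card _ _, h1⟩, ?_, ?_⟩, ?_⟩
  · rw [tok_none (Equiv.apply_symm_apply _ _)]
    exact hC _
  · intro i hi
    apply hwin i
    intro h
    exact hi (by rw [← h, Equiv.symm_apply_apply])
  · rintro g (hg | ⟨k, hk⟩)
    · refine ⟨(σ.trans e).symm (some ⟨g, hg⟩), ?_⟩
      rw [tok_some (t := ⟨g, hg⟩) (Equiv.apply_symm_apply _ _)]
      exact mem_insert_self _ _
    · refine ⟨σ.symm k, tok_sub _ _ _ ?_⟩
      simpa using hk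

end Pool.Agent.PMN
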