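import Pool.Agent.Helper81.PMMS.Convert
import Pool.Agent.PMN.Flow

/-!
# Envy-free partial allocations of maximal level

`v i` are binary-marginal MMS-feasible valuations, `u i` the levels of an envy-free partial
allocation whose total value is maximal.
-/

namespace Pool.Agent.PMN

open Finset Pool.Agent.Helper81.PMMS

set_option linter.unusedSectionVars false

variable {N : Type} [Fintype N] [DecidableEq N] {M : Type} [DecidableEq M]
variable {v : N → Finset M → ℕ} {u : N → ℕ}

/-- nobody values `S` above the own level -/
def Neutral (v : N → Finset M → ℕ) (u : N → ℕ) (S : Finset M) : Prop := ∀ j, v j S ≤ u j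

/-- somebody values `S` above the own level -/
def Full (v : N → Finset M → ℕ) (u : N → ℕ) (S : Finset M) : Prop := ∃ j, u j < v j S

theorem not_neutral {S : Finset M} : ¬ Neutral v u S ↔ Full v u S := by
  unfold Neutral Full
  push Not
  rfl

/-- pairwise disjoint bundles -/
def PD (X : N → Finset M) : Prop := ∀ i j, i ≠ j → Disjoint (X i) (X j)

theorem PD.comp {X : N → Finset M} (h : PD X) (σ : Equiv.Perm N) : PD (fun i => X (σ i)) :=
  fun i j hij => h _ _ fun e => hij (σ.injective e)

/-- every envy-free partial allocation in which everybody gets at least the level gives everybody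
exactly the level -/
def Top (v : N → Finset M → ℕ) (u : N → ℕ) : Prop :=
  ∀ X : N → Finset M, PD X → (∀ i, u i ≤ v i (X i)) → (∀ i j, v i (X j) ≤ v i (X i)) →
    ∀ i, v i (X i) ≤ u i

theorem le_succ_of_thin {w : Finset M → ℕ} (hw : BM w) {C X : Finset M} (h1 : C ⊆ X)
    (h2 : X.card ≤ C.card + 1) : w X ≤ w C + 1 := by
  have h3 : (X \ C).card ≤ 1 := by
    rw [card_sdiff_of_subset h1]
    omega
  rcases Nat.le_one_iff_eq_zero_or_eq_one.1 h3 with h | h
  · rw [card_eq_zero, sdiff_eq_empty_iff_subset] at h
    have : X = C := subset_antisymm h h1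
    rw [this]
    omega
  · obtain ⟨t, ht⟩ := card_eq_one.1 h
    have : X = insert t C := by
      rw [insert_eq, ← ht, sdiff_union_of_subset h1]
    rw [this]
    exact hw.insert_le C t

/-- a world: base bundles `C`, the bundles `X` with at most one more item each, agent `i` holds
the bundle with index `i` -/
structure World (v : N → Finset M → ℕ) (u : N → ℕ) (C X : N → Finset M) : Prop where
  pd : PD X
  neu : ∀ k, Neutral v u (C k)
  sub : ∀ k, C k ⊆ X k
  thin : ∀ k, (X k).card ≤ (C k).card + 1
  acc : ∀ i, u i ≤ v i (C i)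

theorem World.le_succ (hv : ∀ i, BM (v i)) {C X : N → Finset M} (hW : World v u C X) (i k : N) :
    v i (X k) ≤ v i (C k) + 1 := le_succ_of_thin (hv i) (hW.sub k) (hW.thin k)

theorem World.le_level (hv : ∀ i, BM (v i)) {C X : N → Finset M} (hW : World v u C X) (i k : N) :
    v i (X k) ≤ u i + 1 := (hW.le_succ hv i k).trans (by have := hW.neu k i; omega)

/-- a set of winners that is closed under observers is empty -/
theorem World.closed (hv : ∀ i, BM (v i)) (hT : Top v u) {C X : N → Finset M}
    (hW : World v u C X) (A : N → Prop) (h1 : ∀ k, A k → u k < v k (X k))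
    (h2 : ∀ k, A k → ∀ i, u i < v i (X k) → A i) : ∀ k, ¬ A k := by
  classical
  intro k hk
  have h3 := hT (fun i => if A i then X i else C i) ?_ ?_ ?_ k
  · simp only [if_pos hk] at h3
    have := h1 k hk
    omega
  · intro i j hij
    have hXX := hW.pd i j hij
    beta_reduce
    split_ifs
    · exact hXX
    · exact hXX.mono_right (hW.sub j)
    · exact hXX.mono_left (hW.sub i)
    · exact (hXX.mono_left (hW.sub i)).mono_right (hW.sub j)
  · intro i
    split_ifs with h
    · exact (h1 i h).le
    · exact hW.acc i
  · intro i j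
    have hle : u i ≤ v i (if A i then X i else C i) := by
      split_ifs with h
      · exact (h1 i h).le
      · exact hW.acc i
    by_cases hj : A j
    · rw [if_pos hj]
      by_cases hi : A i
      · rw [if_pos hi]
        have := h1 i hi
        have := hW.le_level hv i j
        omega
      · have : ¬ u i < v i (X j) := fun h => hi (h2 j hj i h)
        omega
    · rw [if_neg hj]
      exact (hW.neu j i).trans hle

/-- the gain matrix -/
noncomputable def gain (v : N → Finset M → ℕ) (u : N → ℕ) (X : N → Finset M) (i k : N) : ℤ :=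
  if u i < v i (X k) then 1 else 0

theorem gain_nonneg (X : N → Finset M) (i k : N) : 0 ≤ gain v u X i k := by
  unfold gain; split_ifs <;> norm_num

theorem gain_le_one (X : N → Finset M) (i k : N) : gain v u X i k ≤ 1 := by
  unfold gain; split_ifs <;> norm_num

theorem gain_of_win {X : N → Finset M} {i k : N} (h : u i < v i (X k)) : gain v u X i k = 1 :=
  if_pos h

theorem gain_of_not {X : N → Finset M} {i k : N} (h : ¬ u i < v i (X k)) : gain v u X i k = 0 :=
  if_neg h

/-- who sees a bottom bundle is a winner and bottom -/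
theorem World.bot_seer (hv : ∀ i, BM (v i)) {C X : N → Finset M}
    (hW : World v u C X) {j : N}
    (hb : Bot (fun i k => u i ≤ v i (C k)) (gain v u X) j) {i : N} (hi : u i < v i (X j)) :
    u i < v i (X i) ∧ Bot (fun i k => u i ≤ v i (C k)) (gain v u X) i := by
  have hE : u i ≤ v i (C j) := by
    have := hW.le_succ hv i j
    omega
  have hgj := gain_of_win hi
  have hwin : u i < v i (X i) := by
    by_contra h
    have h0 := gain_of_not h
    have := hb i _ (Flow.edge (E := fun i k => u i ≤ v i (C k)) hE)
    rw [wt_single, hgj, h0] at this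
    omega
  refine ⟨hwin, fun a f hf => ?_⟩
  have h1 := gain_of_win hwin
  have := hb a _ (hf.add (Flow.edge (E := fun i k => u i ≤ v i (C k)) hE))
  rw [wt_add, wt_single, hgj, h1] at this
  omega

/-- the bottom bundles are neutral and there are no bottom winners -/
theorem World.bot_neutral (hv : ∀ i, BM (v i)) (hT : Top v u) {C X : N → Finset M}
    (hW : World v u C X) :
    (∀ j, Bot (fun i k => u i ≤ v i (C k)) (gain v u X) j → Neutral v u (X j)) ∧
    ∀ j, Bot (fun i k => u i ≤ v i (C k)) (gain v u X) j → ¬ u j < v j (X j) := by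
  have h := hW.closed hv hT (fun i => Bot (fun i k => u i ≤ v i (C k)) (gain v u X) i ∧
    u i < v i (X i)) (fun k hk => hk.2) (fun k hk i hi => by
      have := hW.bot_seer hv hk.1 hi
      exact ⟨this.2, this.1⟩)
  refine ⟨fun j hj => ?_, fun j hj hw => h j ⟨hj, hw⟩⟩
  by_contra hn
  obtain ⟨i, hi⟩ := not_neutral.1 hn
  have := hW.bot_seer hv hj hi
  exact h i ⟨this.2, this.1⟩

/-- relabelling by an accepted matching of maximal gain -/
theorem exists_isMax {E : N → N → Prop} (h : N → N → ℤ) {σ : Equiv.Perm N}
    (hσ : ∀ i, E i (σ i)) : ∃ τ : Equiv.Perm N, (∀ i, E i (τ i)) ∧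
      IsMax (fun i k => E i (τ k)) (fun i k => h i (τ k)) := by
  classical
  obtain ⟨τ, hτ1, hτ2⟩ := exists_max_image (univ.filter fun τ : Equiv.Perm N => ∀ i, E i (τ i))
    (fun τ => ∑ i, h i (τ i)) ⟨σ, by simpa using hσ⟩
  rw [mem_filter] at hτ1
  refine ⟨τ, hτ1.2, hτ1.2, fun ρ hρ => ?_⟩
  have := hτ2 (ρ.trans τ) (by simpa using hρ)
  simpa using this

/-- if all bundles of a world with an accepted matching are full, then the levels are not
maximal -/
theorem no_all_full [Nonempty N] (hv : ∀ i, BM (v i)) (hT : Top v u) {C X : N → Finset M}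
    (hd : PD X) (hC : ∀ k, Neutral v u (C k)) (hCX : ∀ k, C k ⊆ X k)
    (hcard : ∀ k, (X k).card ≤ (C k).card + 1) (σ : Equiv.Perm N)
    (hσ : ∀ i, u i ≤ v i (C (σ i))) (hfull : ∀ k, Full v u (X k)) : False := by
  obtain ⟨τ, hτ, hmax⟩ := exists_isMax (E := fun i k => u i ≤ v i (C k)) (gain v u X) hσ
  have hW : World v u (fun k => C (τ k)) (fun k => X (τ k)) :=
    ⟨hd.comp τ, fun k => hC _, fun k => hCX _, fun k => hcard _, hτ⟩
  obtain ⟨j, hj⟩ := hmax.exists_bot
  exact not_neutral.2 (hfull (τ j)) ((hW.bot_neutral hv hT).1 j hj)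

/-- a state: all but the loser `l` win -/
structure State (v : N → Finset M → ℕ) (u : N → ℕ) (l : N) (C X : N → Finset M) : Prop
    extends World v u C X where
  neul : Neutral v u (X l)
  win : ∀ i, i ≠ l → u i < v i (X i)

/-- every agent can be the loser -/
theorem State.free (hv : ∀ i, BM (v i)) (hT : Top v u) {l : N} {C X : N → Finset M}
    (hS : State v u l C X) (j : N) :
    ∃ σ : Equiv.Perm N, σ j = l ∧ ∀ i, i ≠ j → u i < v i (X (σ i)) := by
  classical
  let t : N → Finset N := fun i => if i = j then {l} else univ.filter fun k => u i < v i (X k)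
  have hall : ∀ Q : Finset N, Q.card ≤ (Q.biUnion t).card := by
    intro Q
    by_contra hlt
    push Not at hlt
    set Q' := Q.erase j with hQ'
    set G := Q'.biUnion fun i => univ.filter fun k => u i < v i (X k) with hG
    have hlG : l ∉ G := by
      rw [hG, mem_biUnion]
      rintro ⟨i, _, hi⟩
      rw [mem_filter] at hi
      have := hS.neul i
      omega
    have hG' : Q'.biUnion t = G := by
      rw [hG]
      refine biUnion_congr rfl fun i hi => ?_
      simp only [t]
      rw [if_neg (ne_of_mem_erase hi)]
    have hcard : G.card < Q'.card := by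
      by_cases hj : j ∈ Q
      · have e1 : Q = insert j Q' := (insert_erase hj).symm
        have e2 : Q.biUnion t = insert l G := by
          rw [e1, biUnion_insert, hG']
          have e3 : t j = {l} := if_pos rfl
          rw [e3]
          rfl
        rw [e2, card_insert_of_notMem hlG] at hlt
        have := card_erase_add_one hj
        rw [← hQ'] at this
        omega
      · rw [hQ', erase_eq_of_notMem hj]
        rw [hQ', erase_eq_of_notMem hj] at hG'
        rw [← hG']
        exact hlt
    have hsub : Q'.erase l ⊆ G := by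
      intro i hi
      rw [hG, mem_biUnion]
      exact ⟨i, mem_of_mem_erase hi, by
        rw [mem_filter]; exact ⟨mem_univ _, hS.win i (ne_of_mem_erase hi)⟩⟩
    have hlQ : l ∈ Q' := by
      by_contra h
      rw [erase_eq_of_notMem h] at hsub
      have := card_le_card hsub
      omega
    have hGeq : Q'.erase l = G := by
      apply eq_of_subset_of_card_le hsub
      have := card_erase_add_one hlQ
      omega
    have hjl : j ≠ l := by
      rintro rfl
      exact (notMem_erase _ _) hlQ
    refine hS.toWorld.closed hv hT (fun i => i ∉ Q') ?_ ?_ j (notMem_erase _ _)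
    · intro k hk
      exact hS.win k fun e => hk (e ▸ hlQ)
    · intro k hk i hi hiQ
      apply hk
      apply mem_of_mem_erase (a := l)
      rw [hGeq, hG, mem_biUnion]
      exact ⟨i, hiQ, by rw [mem_filter]; exact ⟨mem_univ _, hi⟩⟩
  obtain ⟨f, hf1, hf2⟩ := (all_card_le_biUnion_card_iff_exists_injective t).1 hall
  refine ⟨Equiv.ofBijective f (Finite.injective_iff_bijective.1 hf1), ?_, ?_⟩
  · have := hf2 j
    simpa [t] using this
  · intro i hi
    have := hf2 i
    simp only [t, if_neg hi, mem_filter] at this
    exact this.2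

end Pool.Agent.PMN
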